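import Pool.Agent.helper35.OT.Spec

set_option autoImplicit false

namespace Pool.Agent.helper35.OT

open Finset

theorem HAN_inj : Function.Injective (fun n : ℕ => 2 * n) := by
  intro m n h
  simp only at h
  omega

theorem HAN_odd {n : ℕ} (h : n ∉ Set.range (fun n : ℕ => 2 * n)) : n % 2 ≠ 0 := by
  intro h2
  exact h ⟨n / 2, by simp only; omega⟩

theorem HAN_coeff (a : ℕ → ℤ) (n : ℕ) : PowerSeries.coeff n (gs a) = (a n : ℚ) := by
  unfold gs
  rw [PowerSeries.coeff_mk]

theorem HAN_coeff2 (g : PowerSeries ℚ) (n : ℕ) :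
    PowerSeries.coeff n (sq2 g) = if n % 2 = 0 then PowerSeries.coeff (n / 2) g else 0 := by
  unfold sq2
  rw [PowerSeries.coeff_mk]

theorem HAN_coeffE (g : PowerSeries ℚ) (n : ℕ) :
    PowerSeries.coeff (2 * n) (sq2 g) = PowerSeries.coeff n g := by
  rw [HAN_coeff2, if_pos (by omega)]
  congr 2
  omega

theorem HAN_sum {a : ℕ → ℤ} {ρ : ℝ} (h0 : 0 < ρ) (h1 : ρ < 1) (hs : Summable fun n => |(a n : ℝ)| * ρ ^ n) :
    Summable fun n => |((PowerSeries.coeff n (sq2 (gs a)) : ℚ) : ℝ)| * ρ ^ n := by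
  rw [← HAN_inj.summable_iff (f := fun n => |((PowerSeries.coeff n (sq2 (gs a)) : ℚ) : ℝ)| * ρ ^ n)]
  · refine Summable.of_nonneg_of_le (fun n => ?_) (fun n => ?_) hs
    · simp only [Function.comp]
      positivity
    · simp only [Function.comp]
      rw [HAN_coeffE, HAN_coeff, Rat.cast_intCast]
      refine mul_le_mul_of_nonneg_left ?_ (abs_nonneg _)
      exact pow_le_pow_of_le_one h0.le h1.le (by omega)
  · intro n hn
    rw [HAN_coeff2, if_neg (HAN_odd hn)]
    simp

theorem HAN_val (a : ℕ → ℤ) (x : ℂ) : sv (sq2 (gs a)) x = sv (gs a) (x ^ 2) := by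
  unfold sv
  rw [← HAN_inj.tsum_eq (f := fun n => ((PowerSeries.coeff n (sq2 (gs a)) : ℚ) : ℂ) * x ^ n)]
  · refine tsum_congr fun n => ?_
    rw [HAN_coeffE, pow_mul]
  · intro n hn
    by_contra hn'
    refine hn ?_
    simp only
    rw [HAN_coeff2, if_neg (HAN_odd hn')]
    simp

theorem HAN_diff {a : ℕ → ℤ} {ρ : ℝ} (hs : Summable fun n => |(a n : ℝ)| * ρ ^ n) :
    DifferentiableOn ℂ (sv (gs a)) (Metric.ball 0 ρ) := by
  unfold sv
  refine Complex.differentiableOn_tsum_of_summable_norm hs (fun n => ?_) Metric.isOpen_ball (fun n w hw => ?_)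
  · exact ((differentiable_id.pow n).const_mul _).differentiableOn
  · rw [HAN_coeff, Rat.cast_intCast, norm_mul, norm_pow]
    have hw' : ‖w‖ ≤ ρ := by
      rw [Metric.mem_ball, dist_zero_right] at hw
      exact hw.le
    have h1 : ‖(a n : ℂ)‖ = |(a n : ℝ)| := by
      rw [Complex.norm_intCast]
    rw [h1]
    exact mul_le_mul_of_nonneg_left (pow_le_pow_left₀ (norm_nonneg _) hw' n) (abs_nonneg _)

theorem HAN (hEVL : EVL_stmt) : HAN_stmt := by
  intro a ρ B h0 h1 hs
  refine ⟨fun x => B.eval₂ (phx x) (sv (gs a) (x ^ 2)), ?_, ?_⟩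
  · have hU : DifferentiableOn ℂ (fun x : ℂ => sv (gs a) (x ^ 2)) (Metric.ball 0 (Real.sqrt ρ)) := by
      refine (HAN_diff hs).comp ((differentiable_id.pow 2).differentiableOn) ?_
      intro x hx
      rw [Metric.mem_ball, dist_zero_right] at hx ⊢
      rw [norm_pow]
      have h2 : ‖x‖ ^ 2 < Real.sqrt ρ ^ 2 := pow_lt_pow_left₀ hx (norm_nonneg _) (by norm_num)
      rwa [Real.sq_sqrt h0.le] at h2
    refine DifferentiableOn.analyticOnNhd ?_ Metric.isOpen_ball
    have he : (fun x : ℂ => B.eval₂ (phx x) (sv (gs a) (x ^ 2))) =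
        fun x : ℂ => ∑ i ∈ range (B.natDegree + 1), ((B.coeff i).map (algebraMap ℚ ℂ)).eval x * sv (gs a) (x ^ 2) ^ i := by
      funext x
      rw [Polynomial.eval₂_eq_sum_range]
      refine sum_congr rfl fun i _ => ?_
      rw [Polynomial.eval_map]
      rfl
    rw [he]
    refine DifferentiableOn.fun_sum fun i _ => ?_
    exact (Polynomial.differentiable _).differentiableOn.mul (hU.pow i)
  · intro x hx
    simp only
    rw [(hEVL B (sq2 (gs a)) ρ h0 (HAN_sum h0 h1 hs)).2 x hx.le, HAN_val]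

end Pool.Agent.helper35.OT
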